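import Mathlib

namespace Pool.Agent.Results.MP_eda2d2_co.Dice

open Polynomial

/-- M_t for t = (a,b,c,d). -/
noncomputable def M (p q r a b c d : ℕ) : ℤ[X] :=
  cyclotomic (p * q * r) ℤ ^ d * cyclotomic (p * q) ℤ ^ a * cyclotomic (p * r) ℤ ^ b *
    cyclotomic (q * r) ℤ ^ c

/-- A_t for t = (a,b,c,d). -/
noncomputable def A (p q r a b c d : ℕ) : ℤ[X] :=
  X * (cyclotomic p ℤ * cyclotomic q ℤ) ^ 2 * M p q r a b c d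

/-- B_t for t = (a,b,c,d). -/
noncomputable def B (p q r a b c d : ℕ) : ℤ[X] :=
  X * cyclotomic r ℤ ^ 2 * M p q r a b c d

/-- Membership in the set T of ten tuples. -/
def InT (a b c d : ℕ) : Prop :=
  (a, b, c, d) = (2, 0, 0, 0) ∨ (a, b, c, d) = (2, 1, 0, 1) ∨ (a, b, c, d) = (2, 0, 1, 1) ∨
    (a, b, c, d) = (2, 1, 1, 1) ∨ (a = 2 ∧ d = 2 ∧ b ≤ 2 ∧ c ≤ 2 ∧ 2 ≤ b + c)

/-- Membership in the set S. -/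
def InS (a b c d : ℕ) : Prop :=
  a ≤ 2 ∧ b ≤ 2 ∧ c ≤ 2 ∧ d ≤ 2 ∧ 2 + d ≤ a + b + c ∧ a + b + c ≤ 4 + d ∧ ¬ InT a b c d ∧
    (a, b, c, d) ≠ (1, 1, 1, 1)

lemma nn_add {f g : ℤ[X]} (hf : ∀ n, 0 ≤ f.coeff n) (hg : ∀ n, 0 ≤ g.coeff n) :
    ∀ n, 0 ≤ (f + g).coeff n := fun n => by rw [coeff_add]; exact add_nonneg (hf n) (hg n)

lemma nn_term (c k : ℕ) : ∀ n, 0 ≤ ((c : ℤ[X]) * X ^ k).coeff n := fun n => by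
  rw [← C_eq_natCast, coeff_C_mul, coeff_X_pow]
  split_ifs <;> simp

lemma c7 : cyclotomic 7 ℤ = 1 + X + X ^ 2 + X ^ 3 + X ^ 4 + X ^ 5 + X ^ 6 := by
  haveI : Fact (Nat.Prime 7) := ⟨by norm_num⟩
  rw [cyclotomic_prime]; simp [Finset.sum_range_succ]

lemma c14 : cyclotomic 14 ℤ = 1 - X + X ^ 2 - X ^ 3 + X ^ 4 - X ^ 5 + X ^ 6 := by
  have h := cyclotomic_expand_eq_cyclotomic_mul (p := 2) (n := 7) (by norm_num) (by norm_num) ℤ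
  apply mul_right_cancel₀ (cyclotomic_ne_zero 7 ℤ)
  rw [show (14 : ℕ) = 7 * 2 from rfl, ← h, c7]
  simp only [map_add, map_one, map_pow, expand_X]
  ring

lemma c21 : cyclotomic 21 ℤ = 1 - X + X ^ 3 - X ^ 4 + X ^ 6 - X ^ 8 + X ^ 9 - X ^ 11 + X ^ 12 := by
  have h := cyclotomic_expand_eq_cyclotomic_mul (p := 3) (n := 7) (by norm_num) (by norm_num) ℤ
  apply mul_right_cancel₀ (cyclotomic_ne_zero 7 ℤ)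
  rw [show (21 : ℕ) = 7 * 3 from rfl, ← h, c7]
  simp only [map_add, map_one, map_pow, expand_X]
  ring

lemma c42 : cyclotomic 42 ℤ * cyclotomic 21 ℤ =
    1 - X ^ 2 + X ^ 6 - X ^ 8 + X ^ 12 - X ^ 16 + X ^ 18 - X ^ 22 + X ^ 24 := by
  have h := cyclotomic_expand_eq_cyclotomic_mul (p := 2) (n := 21) (by norm_num) (by norm_num) ℤ
  rw [show (42 : ℕ) = 21 * 2 from rfl, ← h, c21]
  simp only [map_add, map_sub, map_one, map_pow, expand_X]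
  ring

lemma hA : A 2 3 7 2 2 1 1 = ((1 : ℕ) : ℤ[X]) * X ^ 1 + ((1 : ℕ) : ℤ[X]) * X ^ 3 + ((1 : ℕ) : ℤ[X]) * X ^ 5 + ((2 : ℕ) : ℤ[X]) * X ^ 8 + ((2 : ℕ) : ℤ[X]) * X ^ 10 + ((2 : ℕ) : ℤ[X]) * X ^ 12 + ((2 : ℕ) : ℤ[X]) * X ^ 15 + ((2 : ℕ) : ℤ[X]) * X ^ 17 + ((2 : ℕ) : ℤ[X]) * X ^ 19 + ((2 : ℕ) : ℤ[X]) * X ^ 22 + ((2 : ℕ) : ℤ[X]) * X ^ 24 + ((2 : ℕ) : ℤ[X]) * X ^ 26 + ((2 : ℕ) : ℤ[X]) * X ^ 29 + ((2 : ℕ) : ℤ[X]) * X ^ 31 + ((2 : ℕ) : ℤ[X]) * X ^ 33 + ((2 : ℕ) : ℤ[X]) * X ^ 36 + ((2 : ℕ) : ℤ[X]) * X ^ 38 + ((2 : ℕ) : ℤ[X]) * X ^ 40 + ((1 : ℕ) : ℤ[X]) * X ^ 43 + ((1 : ℕ) : ℤ[X]) * X ^ 45 + ((1 : ℕ) : ℤ[X]) * X ^ 47 := by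
  have e : A 2 3 7 2 2 1 1 = X * (cyclotomic 2 ℤ * cyclotomic 3 ℤ) ^ 2 * cyclotomic 6 ℤ ^ 2 *
      cyclotomic 14 ℤ ^ 2 * (cyclotomic 42 ℤ * cyclotomic 21 ℤ) := by
    simp only [A, M]; norm_num only; ring
  rw [e, c42, c14, cyclotomic_six, cyclotomic_three, cyclotomic_two]
  push_cast; ring

lemma hB : B 2 3 7 0 0 1 1 = ((1 : ℕ) : ℤ[X]) * X ^ 1 + ((2 : ℕ) : ℤ[X]) * X ^ 2 + ((2 : ℕ) : ℤ[X]) * X ^ 3 + ((2 : ℕ) : ℤ[X]) * X ^ 4 + ((2 : ℕ) : ℤ[X]) * X ^ 5 + ((2 : ℕ) : ℤ[X]) * X ^ 6 + ((3 : ℕ) : ℤ[X]) * X ^ 7 + ((2 : ℕ) : ℤ[X]) * X ^ 8 + ((1 : ℕ) : ℤ[X]) * X ^ 13 + ((2 : ℕ) : ℤ[X]) * X ^ 16 + ((2 : ℕ) : ℤ[X]) * X ^ 17 + ((2 : ℕ) : ℤ[X]) * X ^ 18 + ((3 : ℕ) : ℤ[X]) * X ^ 19 + ((2 : ℕ) : ℤ[X]) * X ^ 20 + ((2 : ℕ) : ℤ[X]) * X ^ 21 + ((2 : ℕ) : ℤ[X]) * X ^ 22 + ((1 : ℕ) : ℤ[X]) * X ^ 25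 + ((2 : ℕ) : ℤ[X]) * X ^ 30 + ((3 : ℕ) : ℤ[X]) * X ^ 31 + ((2 : ℕ) : ℤ[X]) * X ^ 32 + ((2 : ℕ) : ℤ[X]) * X ^ 33 + ((2 : ℕ) : ℤ[X]) * X ^ 34 + ((2 : ℕ) : ℤ[X]) * X ^ 35 + ((2 : ℕ) : ℤ[X]) * X ^ 36 + ((1 : ℕ) : ℤ[X]) * X ^ 37 := by
  have e : B 2 3 7 0 0 1 1 = X * cyclotomic 7 ℤ ^ 2 * (cyclotomic 42 ℤ * cyclotomic 21 ℤ) := by
    simp only [B, M]; norm_num only; ring
  rw [e, c42, c7]
  push_cast; ring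

theorem result : ¬ ∀ p q r : ℕ, p.Prime → q.Prime → r.Prime → p ≠ q → p ≠ r → q ≠ r →
    ∀ a b c d : ℕ, InS a b c d →
      (∃ n, (A p q r a b c d).coeff n < 0) ∨
        (∃ n, (B p q r (2 - a) (2 - b) (2 - c) (2 - d)).coeff n < 0) := by
  intro h
  have hS : InS 2 2 1 1 := by simp [InS, InT]
  rcases h 2 3 7 (by norm_num) (by norm_num) (by norm_num) (by norm_num) (by norm_num)
    (by norm_num) 2 2 1 1 hS with ⟨n, hn⟩ | ⟨n, hn⟩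
  · rw [hA] at hn
    exact absurd ((nn_add (nn_add (nn_add (nn_add (nn_add (nn_add (nn_add (nn_add (nn_add (nn_add (nn_add (nn_add (nn_add (nn_add (nn_add (nn_add (nn_add (nn_add (nn_add (nn_add (nn_term 1 1) (nn_term 1 3)) (nn_term 1 5)) (nn_term 2 8)) (nn_term 2 10)) (nn_term 2 12)) (nn_term 2 15)) (nn_term 2 17)) (nn_term 2 19)) (nn_term 2 22)) (nn_term 2 24)) (nn_term 2 26)) (nn_term 2 29)) (nn_term 2 31)) (nn_term 2 33)) (nn_term 2 36)) (nn_term 2 38)) (nn_term 2 40)) (nn_term 1 43)) (nn_term 1 45)) (nn_term 1 47)) n) (not_le.2 hn)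
  · rw [show B 2 3 7 (2 - 2) (2 - 2) (2 - 1) (2 - 1) = B 2 3 7 0 0 1 1 from rfl, hB] at hn
    exact absurd ((nn_add (nn_add (nn_add (nn_add (nn_add (nn_add (nn_add (nn_add (nn_add (nn_add (nn_add (nn_add (nn_add (nn_add (nn_add (nn_add (nn_add (nn_add (nn_add (nn_add (nn_add (nn_add (nn_add (nn_add (nn_term 1 1) (nn_term 2 2)) (nn_term 2 3)) (nn_term 2 4)) (nn_term 2 5)) (nn_term 2 6)) (nn_term 3 7)) (nn_term 2 8)) (nn_term 1 13)) (nn_term 2 16)) (nn_term 2 17)) (nn_term 2 18)) (nn_term 3 19)) (nn_term 2 20)) (nn_term 2 21)) (nn_term 2 22)) (nn_term 1 25)) (nn_term 2 30)) (nn_term 3 31)) (nn_term 2 32)) (nn_term 2 33)) (nn_term 2 34)) (nn_term 2 35)) (nn_term 2 36)) (nn_term 1 37)) n) (not_le.2 hn)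

end Pool.Agent.Results.MP_eda2d2_co.Dice
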